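import Pool.Agent.Helper2.BK.GradeOwn

set_option autoImplicit false

/-!
# The grade conjecture is false

There are a Noetherian local ring `A` of dimension `4` and a nonzero finitely generated `A`-module
`M` with `pd M = 3`, `grade M = 2` and `dim M = 1`; hence `grade M + dim M = 3 < 4 = dim A`.
-/

namespace Pool.Agent.Results.MP_a907e8_ag.GradeConjectureFails

/-- The grade of `M`: the maximal length (as a supremum in `ℕ∞`) of an `A`-regular sequence
contained in the annihilator of `M`. -/
noncomputable def grade (A M : Type) [CommRing A] [AddCommGroup M] [Module A M] : ℕ∞ :=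
  ⨆ (rs : List A) (_ : RingTheory.Sequence.IsRegular A rs)
    (_ : ∀ r ∈ rs, r ∈ Module.annihilator A M), (rs.length : ℕ∞)

/-- The Krull dimension of the module `M`: the Krull dimension of `A / ann M`. -/
noncomputable def dim (A M : Type) [CommRing A] [AddCommGroup M] [Module A M] : WithBot ℕ∞ :=
  ringKrullDim (A ⧸ Module.annihilator A M)

/-- The grade conjecture fails: there are a Noetherian local ring `A` of Krull dimension `4` and a
nonzero finitely generated `A`-module `M` of projective dimension `3`, grade `2` and dimension `1`;
in particular `grade M + dim M < dim A`. -/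
theorem result :
    ∃ (A : Type) (_ : CommRing A) (_ : IsLocalRing A) (_ : IsNoetherianRing A)
      (M : Type) (_ : AddCommGroup M) (_ : Module A M),
      Module.Finite A M ∧ Nontrivial M ∧
        CategoryTheory.projectiveDimension (ModuleCat.of A M) = 3 ∧
        grade A M = 2 ∧ dim A M = 1 ∧ ringKrullDim A = 4 ∧
        (grade A M : WithBot ℕ∞) + dim A M < ringKrullDim A := by
  have hg : grade Pool.Agent.Helper16.AA Pool.Agent.Helper16.MA = 2 := by
    apply le_antisymm
    · refine iSup_le fun rs => iSup_le fun hreg => iSup_le fun hmem => ?_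
      exact_mod_cast Pool.Agent.Helper2.BK.no_three rs hreg.toIsWeaklyRegular hmem
    · refine le_trans ?_ (le_iSup_of_le [(Pool.Agent.Helper16.GA.uu : Pool.Agent.Helper16.AA) ^ 2,
        (Pool.Agent.Helper16.GA.y + Pool.Agent.Helper16.GA.vv : Pool.Agent.Helper16.AA) ^ 3]
        (le_iSup_of_le Pool.Agent.Helper2.BK.reg_two (le_iSup_of_le ?_ le_rfl)))
      · exact le_of_eq (by simp)
      · intro r hr
        simp only [List.mem_cons, List.not_mem_nil, or_false] at hr
        rcases hr with rfl | rfl
        · exact Pool.Agent.Helper16.u2_mem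
        · exact Pool.Agent.Helper16.c3_mem
  have hd : dim Pool.Agent.Helper16.AA Pool.Agent.Helper16.MA = 1 :=
    Pool.Agent.Helper2.BK.dim_quot
  refine ⟨Pool.Agent.Helper16.AA, inferInstance, inferInstance, inferInstance,
    Pool.Agent.Helper16.MA, inferInstance, inferInstance, inferInstance, inferInstance,
    Pool.Agent.Helper2.BK.pd_MA, hg, hd, Pool.Agent.Helper2.BK.dim_AA, ?_⟩
  rw [hg, hd, Pool.Agent.Helper2.BK.dim_AA]
  decide

end Pool.Agent.Results.MP_a907e8_ag.GradeConjectureFails
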